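import Pool.Agent.H54.LauC

open Pool.Agent.H54.LauDef

namespace Pool.Agent.Results.MP_73128c_co.ThreeFour

theorem result (k : ℕ) (hk : k = 3 ∨ k = 4) :
    ∃ (V : Type) (_ : Finite V) (G : SimpleGraph V),
      G.Connected ∧ cardTypes G = k ∧ k < autOrbits G := by
  rcases hk with rfl | rfl
  · exact ⟨_, inferInstance, _, Pool.Agent.H54.LauC.three⟩
  · exact ⟨_, inferInstance, _, Pool.Agent.H54.LauC.four⟩

end Pool.Agent.Results.MP_73128c_co.ThreeFour
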